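import Pool.Agent.Y920.EP.Stm

/-!
# The maximal p-extension inside the algebraic closure (adapted from `Pool/Agent/Y37/ET/Max2.lean`)
-/

set_option autoImplicit false

open IntermediateField Polynomial

namespace Pool.Agent.Y469.EP

open Pool.Agent.Y920.EP

section

variable {F E : Type*} [Field F] [Field E] [Algebra F E]

/-- finite Galois extensions of p-power degree -/
def Tw (p : ℕ) (L : IntermediateField F E) : Prop :=
  FiniteDimensional F L ∧ IsGalois F L ∧ ∃ k : ℕ, Module.finrank F L = p ^ k

/-- the degree of a finite Galois intermediate field of a normal extension is an index -/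
lemma finrank_eq_index [Normal F E] (L : IntermediateField F E) [FiniteDimensional F L]
    [IsGalois F L] : Module.finrank F L = L.fixingSubgroup.index := by
  rw [← IntermediateField.restrictNormalHom_ker L, Subgroup.index_ker,
    MonoidHom.range_eq_top.2 (AlgEquiv.restrictNormalHom_surjective (F := F) (K₁ := L) E),
    Subgroup.card_top, IsGalois.card_aut_eq_finrank]

lemma Tw_sup {p : ℕ} (hp : p.Prime) [Normal F E] {L₁ L₂ : IntermediateField F E} (h1 : Tw p L₁)
    (h2 : Tw p L₂) : Tw p (L₁ ⊔ L₂) := by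
  obtain ⟨f1, g1, k1, e1⟩ := h1
  obtain ⟨f2, g2, k2, e2⟩ := h2
  have := f1
  have := f2
  have := g1
  have := g2
  have hfd : FiniteDimensional F (L₁ ⊔ L₂ : IntermediateField F E) := inferInstance
  have hg : IsGalois F (L₁ ⊔ L₂ : IntermediateField F E) := {
    to_isSeparable := inferInstance
    to_normal := inferInstance }
  refine ⟨hfd, hg, ?_⟩
  rw [finrank_eq_index] at e1 e2 ⊢
  rw [IntermediateField.fixingSubgroup_sup]
  have : (L₁.fixingSubgroup).Normal := by
    rw [← IntermediateField.restrictNormalHom_ker L₁]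
    infer_instance
  have h3 : (L₁.fixingSubgroup ⊓ L₂.fixingSubgroup).index ∣ p ^ (k1 + k2) := by
    have h4 := Subgroup.relIndex_mul_index (inf_le_right : L₁.fixingSubgroup ⊓ L₂.fixingSubgroup ≤
      L₂.fixingSubgroup)
    rw [← h4, Subgroup.inf_relIndex_right, pow_add, ← e1, ← e2]
    exact Nat.mul_dvd_mul (Subgroup.relIndex_dvd_index_of_normal _ _) dvd_rfl
  obtain ⟨k, _, hk⟩ := (Nat.dvd_prime_pow hp).1 h3
  exact ⟨k, hk⟩

lemma Tw_bot (p : ℕ) : Tw p (⊥ : IntermediateField F E) := by
  refine ⟨inferInstance, ?_, 0, ?_⟩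
  · infer_instance
  · rw [IntermediateField.finrank_bot, pow_zero]

/-- `p`-th roots of the same element -/
lemma root_eq {p : ℕ} (hp : p.Prime) {ζ : F} (hζ : IsPrimitiveRoot ζ p) (x y : E)
    (h : x ^ p = y ^ p) : ∃ i : ℕ, x = algebraMap F E (ζ ^ i) * y := by
  by_cases hy : y = 0
  · subst hy
    rw [zero_pow hp.ne_zero, pow_eq_zero_iff hp.ne_zero] at h
    exact ⟨0, by rw [h, mul_zero]⟩
  · have h1 : (x / y) ^ p = 1 := by
      rw [div_pow, h, div_self (pow_ne_zero _ hy)]
    have hζ' : IsPrimitiveRoot (algebraMap F E ζ) p :=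
      hζ.map_of_injective (algebraMap F E).injective
    have : NeZero p := ⟨hp.ne_zero⟩
    obtain ⟨i, _, hi⟩ := hζ'.eq_pow_of_pow_eq_one h1
    refine ⟨i, ?_⟩
    rw [map_pow, hi, div_mul_cancel₀ _ hy]

/-- adjoining a `p`-th root -/
lemma Tw_root {p : ℕ} (hp : p.Prime) {ζ : F} (hζ : IsPrimitiveRoot ζ p) (y : E) (c : F)
    (hy : y ^ p = algebraMap F E c) : Tw p (F⟮y⟯) := by
  by_cases hb : ∃ b : F, b ^ p = c
  · obtain ⟨b, rfl⟩ := hb
    rw [map_pow] at hy
    obtain ⟨i, hi⟩ := root_eq hp hζ y (algebraMap F E b) hy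
    have hmem : y ∈ (⊥ : IntermediateField F E) := by
      rw [hi, ← map_mul]
      exact IntermediateField.algebraMap_mem _ _
    rw [IntermediateField.adjoin_simple_eq_bot_iff.2 hmem]
    exact Tw_bot p
  · have hirr : Irreducible (X ^ p - C c : F[X]) :=
      X_pow_sub_C_irreducible_of_prime hp fun b hb' => hb ⟨b, hb'⟩
    have hζn : (primitiveRoots p F).Nonempty := ⟨ζ, (mem_primitiveRoots hp.pos).2 hζ⟩
    have hsf : (X ^ p - C c : F[X]).IsSplittingField F F⟮y⟯ := by
      rw [IntermediateField.isSplittingField_iff]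
      constructor
      · rw [Polynomial.map_sub, Polynomial.map_pow, Polynomial.map_C, Polynomial.map_X]
        refine X_pow_sub_C_splits_of_isPrimitiveRoot
          (hζ.map_of_injective (algebraMap F F⟮y⟯).injective) (α := AdjoinSimple.gen F y) ?_
        apply Subtype.ext
        exact hy
      · apply le_antisymm
        · rw [IntermediateField.adjoin_simple_le_iff]
          apply IntermediateField.subset_adjoin
          rw [mem_rootSet_of_ne (X_pow_sub_C_ne_zero hp.pos c)]
          simp [hy]
        · rw [IntermediateField.adjoin_le_iff]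
          intro x hx
          rw [mem_rootSet_of_ne (X_pow_sub_C_ne_zero hp.pos c)] at hx
          have hx' : x ^ p = y ^ p := by
            rw [hy]
            simpa [sub_eq_zero] using hx
          obtain ⟨i, hi⟩ := root_eq hp hζ x y hx'
          rw [hi]
          exact mul_mem (IntermediateField.algebraMap_mem _ _)
            (IntermediateField.mem_adjoin_simple_self F y)
    refine ⟨Polynomial.IsSplittingField.finiteDimensional _ (X ^ p - C c),
      isGalois_of_isSplittingField_X_pow_sub_C hζn hirr _, 1, ?_⟩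
    rw [pow_one]
    exact finrank_of_isSplittingField_X_pow_sub_C hζn hirr _

end

theorem t_MAX' : S_MAX' := by
  intro p hp F _ ⟨ζ, hζ⟩ K hK
  obtain ⟨S, hS⟩ : ∃ S : Set (IntermediateField F (AlgebraicClosure F)), S = {L | Tw p L} :=
    ⟨_, rfl⟩
  have hK' : K = ⨆ L : S, L.1 := by
    rw [hK, hS, ← sSup_eq_iSup']
    rfl
  have hmem : ∀ L : IntermediateField F (AlgebraicClosure F), L ∈ S ↔ Tw p L := by
    intro L
    rw [hS]
    rfl
  have hST : ∀ L : S, Tw p L.1 := fun L => (hmem _).1 L.2
  have hle : ∀ L : IntermediateField F (AlgebraicClosure F), Tw p L → L ≤ K := by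
    intro L hL
    rw [hK']
    exact le_iSup (fun L : S => L.1) ⟨L, (hmem _).2 hL⟩
  have hne : Nonempty S := ⟨⟨⊥, (hmem _).2 (Tw_bot p)⟩⟩
  have hdir : Directed (· ≤ ·) fun L : S => L.1 := by
    intro L₁ L₂
    refine ⟨⟨L₁.1 ⊔ L₂.1, ?_⟩, le_sup_left, le_sup_right⟩
    exact (hmem _).2 (Tw_sup hp (hST L₁) (hST L₂))
  refine ⟨?_, ?_, ?_⟩
  · rw [hK']
    have : ∀ L : S, Normal F L.1 := fun L => by
      have := (hST L).2.1
      infer_instance
    have : ∀ L : S, Algebra.IsSeparable F L.1 := fun L => by
      have := (hST L).2.1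
      infer_instance
    exact { to_isSeparable := inferInstance, to_normal := inferInstance }
  · intro x
    have hx : (x : AlgebraicClosure F) ∈ ((⨆ L : S, L.1 : IntermediateField F (AlgebraicClosure F)) :
        Set (AlgebraicClosure F)) := by
      rw [← hK']
      exact x.2
    rw [IntermediateField.coe_iSup_of_directed hdir, Set.mem_iUnion] at hx
    obtain ⟨L, hxL⟩ := hx
    have hLK : L.1 ≤ K := hle _ (hST L)
    obtain ⟨f1, g1, k, e1⟩ := hST L
    have := f1
    have := g1
    let e := IntermediateField.restrictAlgEquiv hLK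
    refine ⟨IntermediateField.restrict hLK, ?_, ?_, ?_, k, ?_⟩
    · rw [IntermediateField.mem_restrict]
      exact hxL
    · exact LinearEquiv.finiteDimensional e.toLinearEquiv
    · exact IsGalois.of_algEquiv e
    · rw [← e1]
      exact (LinearEquiv.finrank_eq e.toLinearEquiv).symm
  · intro c
    obtain ⟨y, hy⟩ := IsAlgClosed.exists_pow_nat_eq (algebraMap F (AlgebraicClosure F) c)
      (n := p) hp.pos
    have hyK : y ∈ K := hle _ (Tw_root hp hζ y c hy)
      (IntermediateField.mem_adjoin_simple_self F y)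
    refine ⟨⟨y, hyK⟩, ?_⟩
    apply Subtype.ext
    exact hy

end Pool.Agent.Y469.EP
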